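import Pool.Agent.Lib.MP_defcf3_al.BRP.Base
import Pool.Agent.Lib.MP_defcf3_al.BR.H4.Dlog

/-!
# Module LAG: interpolation
-/

set_option autoImplicit false

namespace BRP.H78

open Polynomial

universe u

open BR7 BR7.H78

variable {ℓ : ℕ} [Fact ℓ.Prime] [Fact (Odd ℓ)]


/-- A power of the Frobenius makes every polynomial over a separably closed field split. -/
lemma exists_frob_splits {Ω : Type u} [Field Ω] [IsSepClosed Ω] (q : ℕ) [ExpChar Ω q] (P : Polynomial Ω)
    (hP : P ≠ 0) : ∃ N : ℕ, P.map (iterateFrobenius Ω q N) =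
      C (P.map (iterateFrobenius Ω q N)).leadingCoeff *
        ((P.map (iterateFrobenius Ω q N)).roots.map fun a => X - C a).prod := by
  classical
  set K := AlgebraicClosure Ω with hK
  have hchar : ExpChar K q := expChar_of_injective_algebraMap (algebraMap Ω K).injective q
  have hpow : ∀ x : K, ∃ n : ℕ, x ^ q ^ n ∈ (algebraMap Ω K).range := fun x =>
    IsPurelyInseparable.pow_mem Ω q x
  choose n hn using hpow
  set s := (P.map (algebraMap Ω K)).roots with hs
  set N := s.toFinset.sup n with hN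
  have hN2 : ∀ x ∈ s, ∃ t : Ω, algebraMap Ω K t = x ^ q ^ N := by
    intro x hx
    have h1 : n x ≤ N := Finset.le_sup (f := n) (Multiset.mem_toFinset.2 hx)
    obtain ⟨t, ht⟩ := hn x
    refine ⟨t ^ q ^ (N - n x), ?_⟩
    rw [map_pow, ht, ← pow_mul, ← pow_add]
    congr 2
    omega
  have hN3 : ∀ x : K, ∃ t : Ω, x ∈ s → algebraMap Ω K t = x ^ q ^ N := by
    intro x
    by_cases hx : x ∈ s
    · obtain ⟨t, ht⟩ := hN2 x hx
      exact ⟨t, fun _ => ht⟩
    · exact ⟨0, fun h => absurd h hx⟩
  choose t ht using hN3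
  refine ⟨N, ?_⟩
  have hsplit : P.map (algebraMap Ω K) = C (P.map (algebraMap Ω K)).leadingCoeff *
      (s.map fun a => X - C a).prod := (IsAlgClosed.splits _).eq_prod_roots
  set c := iterateFrobenius Ω q N P.leadingCoeff with hc
  have hfact : P.map (iterateFrobenius Ω q N) = C c * ((s.map t).map fun a => X - C a).prod := by
    apply Polynomial.map_injective (algebraMap Ω K) (algebraMap Ω K).injective
    have e1 : (P.map (iterateFrobenius Ω q N)).map (algebraMap Ω K) =
        (P.map (algebraMap Ω K)).map (iterateFrobenius K q N) := by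
      rw [Polynomial.map_map, Polynomial.map_map, RingHom.iterateFrobenius_comm]
    rw [e1, hsplit, Polynomial.map_mul, Polynomial.map_mul, Polynomial.map_C, Polynomial.map_C]
    congr 1
    · exact congrArg C (by
        rw [hc, Polynomial.leadingCoeff_map, RingHom.map_iterateFrobenius (algebraMap Ω K)])
    · rw [Polynomial.map_multiset_prod, Polynomial.map_multiset_prod, Multiset.map_map,
        Multiset.map_map, Multiset.map_map]
      congr 1
      apply Multiset.map_congr rfl
      intro x hx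
      simp only [Function.comp_apply, Polynomial.map_sub, Polynomial.map_X, Polynomial.map_C]
      rw [ht x hx, iterateFrobenius_def]
  have hc0 : c ≠ 0 := by
    rw [hc, iterateFrobenius_def]
    exact pow_ne_zero _ (leadingCoeff_ne_zero.2 hP)
  have hroots : (P.map (iterateFrobenius Ω q N)).roots = s.map t := by
    rw [hfact, roots_C_mul _ hc0, roots_multiset_prod_X_sub_C]
  have hlead : (P.map (iterateFrobenius Ω q N)).leadingCoeff = c := by
    rw [leadingCoeff_map]
  rw [hroots, hlead]
  exact hfact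

lemma coprime_char {Ω : Type u} [Field Ω] (ζ : Ωˣ) (hζ : IsPrimitiveRoot ζ ℓ) (q : ℕ)
    [ExpChar Ω q] (N : ℕ) : Nat.Coprime (q ^ N) ℓ := by
  apply Nat.Coprime.pow_left
  rcases expChar_is_prime_or_one Ω q with hq | hq
  · rw [Nat.coprime_primes hq (Fact.out : Nat.Prime ℓ)]
    intro hql
    have hE : ExpChar Ω ℓ := by
      rw [← hql]
      infer_instance
    have h7 : ζ ^ ℓ = 1 := hζ.pow_eq_one
    have h8 : (ζ : Ω) ^ ℓ = 1 := by
      rw [← Units.val_pow_eq_pow_val, h7, Units.val_one]
    have h9 : ((ζ : Ω) - 1) ^ ℓ = 0 := by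
      rw [sub_pow_expChar, h8, one_pow, sub_self]
    have h10 : (ζ : Ω) = 1 :=
      sub_eq_zero.1 ((pow_eq_zero_iff (Fact.out : Nat.Prime ℓ).ne_zero).1 h9)
    have h11 : ζ = 1 := Units.ext h10
    have := hζ.eq_orderOf
    rw [h11, orderOf_one] at this
    exact (Fact.out : Nat.Prime ℓ).one_lt.ne' this
  · rw [hq]
    exact Nat.coprime_one_left ℓ

theorem lag : LagStatement.{u} ℓ := by
  intro F Ω _ _ _ _ _ ζ hζ X' _ _ _ u v hu hv hinj
  classical
  have hdisc : Disc (Ω ≃ₐ[F] Ω) Ωˣ := H4.disc F Ω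
  obtain ⟨q, hq⟩ := ExpChar.exists Ω
  have hvs : Set.InjOn (fun x => (v x : Ω)) ((Finset.univ : Finset X') : Set X') := by
    intro x _ y _ h
    exact hinj (Units.ext h)
  set P : Polynomial Ω := Lagrange.interpolate Finset.univ (fun x => (v x : Ω)) (fun x => (u x : Ω)) with hP
  have hPe : ∀ x, P.eval (v x : Ω) = u x := fun x =>
    Lagrange.eval_interpolate_at_node _ hvs (Finset.mem_univ x)
  have hPd : P.degree < Fintype.card X' := by
    have := Lagrange.degree_interpolate_lt (fun x => (u x : Ω)) hvs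
    rwa [Finset.card_univ] at this
  have hP0 : P ≠ 0 := by
    intro h
    obtain ⟨x⟩ := (inferInstance : Nonempty X')
    have := hPe x
    rw [h, eval_zero] at this
    exact (u x).ne_zero this.symm
  have hPn : P.natDegree < Fintype.card X' := (natDegree_lt_iff_degree_lt hP0).2 hPd
  -- invariance of the polynomial
  have hPinv : ∀ h : HZ F ζ, P.map ((h : Ω ≃ₐ[F] Ω) : Ω ≃+* Ω).toRingHom = P := by
    intro h
    apply Polynomial.eq_of_degrees_lt_of_eval_index_eq Finset.univ hvs
    · rw [Finset.card_univ]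
      exact lt_of_le_of_lt (degree_map_le) hPd
    · rw [Finset.card_univ]
      exact hPd
    · intro x _
      have e1 : (v x : Ω) = ((h : Ω ≃ₐ[F] Ω) : Ω ≃+* Ω).toRingHom (v (h⁻¹ • x) : Ω) := by
        have := hv h (h⁻¹ • x)
        rw [smul_inv_smul] at this
        rw [this]
        rfl
      have e2 : (u x : Ω) = ((h : Ω ≃ₐ[F] Ω) : Ω ≃+* Ω).toRingHom (u (h⁻¹ • x) : Ω) := by
        have := hu h (h⁻¹ • x)
        rw [smul_inv_smul] at this
        rw [this]
        rfl
      show (P.map _).eval (v x : Ω) = P.eval (v x : Ω)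
      rw [hPe]
      conv_lhs => rw [e1]
      rw [eval_map_apply, hPe, ← e2]
  obtain ⟨N, hN⟩ := exists_frob_splits q P hP0
  set P' := P.map (iterateFrobenius Ω q N) with hP'
  have hP'0 : P' ≠ 0 := (Polynomial.map_ne_zero_iff (iterateFrobenius Ω q N).injective).2 hP0
  have hP'inv : ∀ h : HZ F ζ, P'.map ((h : Ω ≃ₐ[F] Ω) : Ω ≃+* Ω).toRingHom = P' := by
    intro h
    rw [hP', Polynomial.map_map, RingHom.iterateFrobenius_comm, ← Polynomial.map_map, hPinv]
  have hcount : ∀ (h : HZ F ζ) (a : Ω), P'.roots.count (((h : Ω ≃ₐ[F] Ω) : Ω ≃+* Ω).toRingHom a) =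
      P'.roots.count a := by
    intro h a
    rw [count_roots, count_roots]
    conv_lhs => rw [← hP'inv h]
    exact (eq_rootMultiplicity_map (p := P')
      (f := ((h : Ω ≃ₐ[F] Ω) : Ω ≃+* Ω).toRingHom) (RingHom.injective _) a).symm
  -- the set of nonzero roots
  have hmemsm : ∀ (h : HZ F ζ) (b : Ωˣ), (b : Ω) ∈ P'.roots → ((h • b : Ωˣ) : Ω) ∈ P'.roots := by
    intro h b hb
    rw [← Multiset.count_pos] at hb ⊢
    have := hcount h (b : Ω)
    have e : ((h • b : Ωˣ) : Ω) = ((h : Ω ≃ₐ[F] Ω) : Ω ≃+* Ω).toRingHom (b : Ω) := rfl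
    rw [e, this]
    exact hb
  let R : Type u := {b : Ωˣ // (b : Ω) ∈ P'.roots}
  let instR : MulAction (HZ F ζ) R :=
    { smul := fun h b => ⟨h • (b : Ωˣ), hmemsm h b b.2⟩
      one_smul := fun b => Subtype.ext (one_smul (HZ F ζ) (b : Ωˣ))
      mul_smul := fun g h b => Subtype.ext (mul_smul g h (b : Ωˣ)) }
  have hRinj : Function.Injective (fun b : R => (⟨((b : Ωˣ) : Ω),
      Multiset.mem_toFinset.2 b.2⟩ : {a // a ∈ P'.roots.toFinset})) := by
    intro a b h
    exact Subtype.ext (Units.ext (congrArg Subtype.val h))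
  have hRfin : Finite R := Finite.of_injective _ hRinj
  let ftR : Fintype R := Fintype.ofFinite R
  have hRcard : Fintype.card R < Fintype.card X' := by
    have h1 : Fintype.card R ≤ P'.roots.toFinset.card := by
      have := Fintype.card_le_of_injective _ hRinj
      rwa [Fintype.card_coe] at this
    have h2 : P'.roots.toFinset.card ≤ P'.roots.card := Multiset.toFinset_card_le _
    have h3 : P'.roots.card ≤ P'.natDegree := card_roots' P'
    have h4 : P'.natDegree ≤ P.natDegree := natDegree_map_le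
    omega
  have hc0 : P'.leadingCoeff ≠ 0 := leadingCoeff_ne_zero.2 hP'0
  refine ⟨q ^ N, Units.mk0 P'.leadingCoeff hc0, P'.roots.count 0, R, instR, ftR,
    fun b => (b : Ωˣ), fun b => P'.roots.count ((b : Ωˣ) : Ω), coprime_char ζ hζ q N, ?_, ?_, ?_,
    ?_, ?_, hRcard, ?_⟩
  · intro b
    have h1 : IsOpen {g : Ω ≃ₐ[F] Ω | g • (b : Ωˣ) = b} := hdisc b
    have h2 : {g : HZ F ζ | g • b = b} =
        (fun g : HZ F ζ => (g : Ω ≃ₐ[F] Ω)) ⁻¹' {g : Ω ≃ₐ[F] Ω | g • (b : Ωˣ) = b} := by
      ext g
      exact Subtype.ext_iff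
    rw [h2]
    exact h1.preimage continuous_subtype_val
  · intro g hg
    apply Units.ext
    have h1 := hP'inv ⟨g, hg⟩
    have h2 := congrArg (fun p : Polynomial Ω => p.coeff P'.natDegree) h1
    simp only [coeff_map] at h2
    exact h2
  · intro g b
    rfl
  · intro h b
    exact hcount h ((b : Ωˣ) : Ω)
  · intro b
    exact (Multiset.count_pos.2 b.2).ne'
  · intro x
    have e1 : ((u x ^ q ^ N : Ωˣ) : Ω) = P'.eval ((v x ^ q ^ N : Ωˣ) : Ω) := by
      rw [Units.val_pow_eq_pow_val, Units.val_pow_eq_pow_val, ← hPe x,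
        ← iterateFrobenius_def q N, ← iterateFrobenius_def q N, hP', eval_map_apply]
    rw [e1]
    generalize ((v x ^ q ^ N : Ωˣ) : Ω) = y
    rw [Units.val_mk0]
    conv_lhs => rw [hN]
    rw [eval_mul, eval_C, mul_assoc]
    congr 1
    rw [eval_multiset_prod, Multiset.map_map, Finset.prod_multiset_map_count]
    have e2 : ∀ a : Ω, (eval y ∘ fun a => (X - C a : Polynomial Ω)) a = y - a := by
      intro a
      simp
    rw [Finset.prod_congr rfl fun a _ => by rw [e2 a]]
    -- separate the root zero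
    have e3 : ∏ a ∈ P'.roots.toFinset, (y - a) ^ P'.roots.count a =
        y ^ P'.roots.count 0 *
          ∏ a ∈ P'.roots.toFinset.erase 0, (y - a) ^ P'.roots.count a := by
      by_cases h0 : (0 : Ω) ∈ P'.roots.toFinset
      · rw [← Finset.mul_prod_erase _ _ h0, sub_zero]
      · rw [Finset.erase_eq_of_notMem h0, Multiset.count_eq_zero_of_notMem
          (fun h => h0 (Multiset.mem_toFinset.2 h)), pow_zero, one_mul]
    rw [e3]
    congr 1
    symm
    apply Finset.prod_bij (fun (b : R) _ => ((b : Ωˣ) : Ω))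
    · intro b _
      rw [Finset.mem_erase, Multiset.mem_toFinset]
      exact ⟨Units.ne_zero _, b.2⟩
    · intro a _ b _ h
      exact Subtype.ext (Units.ext h)
    · intro a ha
      rw [Finset.mem_erase, Multiset.mem_toFinset] at ha
      exact ⟨⟨Units.mk0 a ha.1, ha.2⟩, Finset.mem_univ _, rfl⟩
    · intro b _
      rfl

end BRP.H78
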